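import Pool.Agent.Helper4.Flip.BStep

/-!
# Upper bound for the number of bounces (module FLIP-BNO of MP_bfe50c)
-/

set_option autoImplicit false

namespace Pool.Agent.Helper20.Flip

namespace BNo

/-- ranked states of the bounce phase -/
def GB (τ lz lp lw : ℝ) (rest : List Edge) (u : ℝ) (r : ℕ) (c : List Edge) : Prop :=
  ∃ α p β, c = bch τ lz lp lw rest α p β ∧
    ((α ≤ p ∧ p ≤ β ∧ -(7 / 5) ≤ α ∧ β ≤ 7 / 5) ∨
    (u ≤ β - α ∧ α ≤ 1 / 8 ∧ -(1 / 8) ≤ β ∧ ∃ d, 0 < d ∧ d ≤ 3 / 5 ∧ d < r * u ∧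
      (β - α) + d / 8 ≤ 1 / 4 ∧ (p = β + d ∨ p = α - d)) ∨
    (β < α ∧ α < p ∧ u ≤ α - β ∧ |α| ≤ 1 / 32 ∧ |β| ≤ 1 / 32 ∧ p - α ≤ 9 / 16 ∧
      (p - α) + u < r * u))

theorem rank_pos {r : ℕ} {u d : ℝ} (hu : 0 < u) (hd : 0 < d) (h : d < r * u) : 0 < r := by
  rcases Nat.eq_zero_or_pos r with h0 | h0
  · subst h0; simp at h; linarith
  · exact h0

/-- the arithmetic of a bounce -/
theorem arith {lp u U U' d : ℝ} (hlpu : 64 * lp ≤ u) (hU : u ≤ U) (hu : 0 < u)
    (hd0 : 0 < d) (hd : d ≤ 3 / 5) (hs : U + d / 8 ≤ 1 / 4)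
    (h2 : U' ≤ U + 8 * lp * d) : U' + (d - U') / 8 ≤ 1 / 4 := by
  have h3 : 8 * lp * d ≤ u / 8 * d := mul_le_mul_of_nonneg_right (by linarith) hd0.le
  have h4 : u / 8 * d ≤ U / 8 := by nlinarith
  linarith

end BNo

open BNo in
theorem bounce_no {N : ℕ} {τ lz lp lw : ℝ} {rest : List Edge} (hB : BState N τ lz lp lw rest)
    {u α p β : ℝ} (hu : 0 < u) (hlpu : 64 * lp ≤ u) (hα : |α| ≤ 1 / 32) (hβ : |β| ≤ 1 / 32)
    (hp : |p - 1 / 2| ≤ 1 / 32) (hαβ : u ≤ |β - α|) {K : ℕ} (hK : 1 / u + 3 ≤ K) :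
    ∃ G : ℕ → List Edge → Prop,
      G K (bch τ lz lp lw rest α p β) ∧ (∀ r c, G r c → Ok N c) ∧
      ∀ r c c', G r c → CStep c c' → ∃ r' < r, G r' c' := by
  have hlp := hB.hlp.1
  have ok : ∀ r c, GB τ lz lp lw rest u r c → Ok N c := by
    rintro r c ⟨α, p, β, rfl, h | h | h⟩
    · obtain ⟨h1, h2, h3, h4⟩ := h
      exact bch_ok hB (abs_le.2 ⟨by linarith, by linarith⟩) (abs_le.2 ⟨by linarith, by linarith⟩)
        (abs_le.2 ⟨by linarith, by linarith⟩)
    · obtain ⟨h1, h2, h3, d, h4, h5, h6, h7, h8 | h8⟩ := h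
      · exact bch_ok hB (abs_le.2 ⟨by linarith, by linarith⟩) (abs_le.2 ⟨by linarith, by linarith⟩)
          (abs_le.2 ⟨by linarith, by linarith⟩)
      · exact bch_ok hB (abs_le.2 ⟨by linarith, by linarith⟩) (abs_le.2 ⟨by linarith, by linarith⟩)
          (abs_le.2 ⟨by linarith, by linarith⟩)
    · obtain ⟨h1, h2, h3, h4, h5, h6, h7⟩ := h
      rw [abs_le] at h4 h5
      exact bch_ok hB (abs_le.2 ⟨by linarith, by linarith⟩) (abs_le.2 ⟨by linarith, by linarith⟩)
        (abs_le.2 ⟨by linarith, by linarith⟩)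
  refine ⟨GB τ lz lp lw rest u, ?_, ok, ?_⟩
  · have hKu : 1 + 3 * u ≤ K * u := by
      have := mul_le_mul_of_nonneg_right hK hu.le
      rw [add_mul, one_div, inv_mul_cancel₀ hu.ne'] at this
      exact this
    rw [abs_le] at hα hβ hp
    refine ⟨α, p, β, rfl, ?_⟩
    rcases le_total α β with h | h
    · rw [abs_of_nonneg (by linarith)] at hαβ
      right; left
      exact ⟨hαβ, by linarith, by linarith, p - β, by linarith, by linarith, by linarith,
        by linarith, Or.inl (by ring)⟩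
    · rw [abs_of_nonpos (by linarith)] at hαβ
      right; right
      exact ⟨by linarith, by linarith, by linarith, abs_le.2 hα, abs_le.2 hβ, by linarith,
        by linarith⟩
  · rintro r c c' hG hc
    have hok := ok r c hG
    obtain ⟨α, p, β, rfl, h | h | h⟩ := hG
    · obtain ⟨h1, h2, h3, h4⟩ := h
      exact absurd hc (not_cstep_of_wsorted hok (bch_wsorted hB h1 h2 h4))
    · obtain ⟨h1, h2, h3, d, h4, h5, h6, h7, h8 | h8⟩ := h
      · obtain ⟨p', β', -, hun, b1, b2, b3⟩ := flip_right hB (α := α) (p := p) (β := β)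
          (by linarith) (by linarith) (by linarith) (by linarith)
        have hr := rank_pos hu h4 h6
        have hr' : ((r - 1 : ℕ) : ℝ) = r - 1 := by
          rw [Nat.cast_sub hr]; simp
        have e1 : p - β = d := by linarith
        rw [e1] at b2 b3
        refine ⟨r - 1, by omega, ?_⟩
        rw [hun c' hc]
        have ar := arith (U := β - α) (U' := β' - α) hlpu h1 hu h4 h5 h7 (by linarith)
        refine ⟨α, p', β', rfl, ?_⟩
        rcases lt_or_ge 0 (d - (β' - α)) with h9 | h9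
        · right; left
          refine ⟨by linarith, h2, by linarith, d - (β' - α), h9, by linarith, ?_, ar,
            Or.inr (by linarith)⟩
          rw [hr', sub_mul, one_mul]; linarith
        · left
          exact ⟨by linarith, by linarith, by linarith, by linarith⟩
      · obtain ⟨α', p', -, hun, b1, b2, b3⟩ := flip_left hB (α := α) (p := p) (β := β)
          (by linarith) (by linarith) (by linarith) (by linarith)
        have hr := rank_pos hu h4 h6
        have hr' : ((r - 1 : ℕ) : ℝ) = r - 1 := by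
          rw [Nat.cast_sub hr]; simp
        have e1 : α - p = d := by linarith
        rw [e1] at b2 b3
        refine ⟨r - 1, by omega, ?_⟩
        rw [hun c' hc]
        have ar := arith (U := β - α) (U' := β - α') hlpu h1 hu h4 h5 h7 (by linarith)
        refine ⟨α', p', β, rfl, ?_⟩
        rcases lt_or_ge 0 (d - (β - α')) with h9 | h9
        · right; left
          refine ⟨by linarith, by linarith, h3, d - (β - α'), h9, by linarith, ?_, ar,
            Or.inl (by linarith)⟩
          rw [hr', sub_mul, one_mul]; linarith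
        · left
          exact ⟨by linarith, by linarith, by linarith, by linarith⟩
    · obtain ⟨h1, h2, h3, h4, h5, h6, h7⟩ := h
      have h4' := abs_le.1 h4
      have h5' := abs_le.1 h5
      obtain ⟨s, s1, s2, -, hun⟩ := flip_all hB (α := α) (p := p) (β := β)
          (by linarith) h1 h2 (by linarith) (by linarith)
      have hr := rank_pos hu (d := p - α + u) (by linarith) h7
      have hr' : ((r - 1 : ℕ) : ℝ) = r - 1 := by
        rw [Nat.cast_sub hr]; simp
      refine ⟨r - 1, by omega, ?_⟩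
      rw [hun c' hc]
      refine ⟨_, _, _, rfl, ?_⟩
      right; left
      refine ⟨by linarith, by linarith, by linarith, p - α, by linarith, by linarith, ?_,
        by linarith, Or.inr (by ring)⟩
      rw [hr', sub_mul, one_mul]; linarith

end Pool.Agent.Helper20.Flip
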