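import Pool.Agent.Helper20.Flip.BDefs
import Pool.Agent.Helper98.Flip.Blocks

/-!
# The flips of the bounce phase (module FLIP-BSTEP of MP_bfe50c)
-/

set_option autoImplicit false

namespace Pool.Agent.Helper20.Flip

theorem bch_ok {N : ℕ} {τ lz lp lw : ℝ} {rest : List Edge} (hB : BState N τ lz lp lw rest)
    {α p β : ℝ} (hα : |α| ≤ 7 / 5) (hp : |p| ≤ 7 / 5) (hβ : |β| ≤ 7 / 5) :
    Ok N (bch τ lz lp lw rest α p β) := by
  have ab : ∀ x : ℝ, |x| ≤ 7 / 5 → |τ * x| ≤ 1 / 100 := fun x hx => by
    rw [abs_mul, abs_of_pos hB.hτ]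
    calc τ * |x| ≤ 1 / 200 * (7 / 5) := mul_le_mul hB.hτ' hx (abs_nonneg _) (by norm_num)
      _ ≤ 1 / 100 := by norm_num
  refine ⟨?_, ?_, ?_⟩
  · simp only [bch, List.length_cons]; have := hB.hN; omega
  · have := hB.hN; omega
  · intro e he
    simp only [bch, List.mem_cons] at he
    rcases he with rfl | rfl | rfl | he
    · exact ⟨by have := hB.hlz.1; simp only; linarith, hB.hlz.2, ab _ hα⟩
    · exact ⟨hB.hlp.1, by have := hB.hlp.2; simp only; linarith, ab _ hp⟩
    · exact ⟨by have := hB.hlw.1; simp only; linarith, hB.hlw.2, ab _ hβ⟩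
    · obtain ⟨h1, h2, h3, h4⟩ := hB.hrest' e he
      refine ⟨h1, h2, abs_le.2 ⟨?_, h4⟩⟩
      have := hB.hτ
      nlinarith

theorem bch_wsorted {N : ℕ} {τ lz lp lw : ℝ} {rest : List Edge} (hB : BState N τ lz lp lw rest)
    {α p β : ℝ} (h1 : α ≤ p) (h2 : p ≤ β) (h3 : β ≤ 7 / 5) :
    WSorted (bch τ lz lp lw rest α p β) := by
  have hτ := hB.hτ
  have hr : ∀ e ∈ rest, τ * β ≤ e.2 := fun e he => by
    have := (hB.hrest' e he).2.2.1
    nlinarith
  have m1 := mul_le_mul_of_nonneg_left h1 hτ.le
  have m2 := mul_le_mul_of_nonneg_left h2 hτ.le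
  simp only [WSorted, bch, List.pairwise_cons, List.mem_cons]
  refine ⟨?_, ?_, ?_, ?_⟩
  · rintro e (rfl | rfl | he)
    · exact m1
    · simp only; linarith
    · have := hr e he; linarith
  · rintro e (rfl | he)
    · exact m2
    · have := hr e he; linarith
  · exact hr
  · exact hB.hrest.imp fun h => h.le

namespace BStep

theorem ht_nonneg {c : List Edge} {s : ℝ} (h : ∀ e ∈ c, 0 ≤ e.1 ∧ s ≤ e.2 ∧ e.2 ≤ s + 3) :
    0 ≤ ht s c := by
  apply List.sum_nonneg
  intro x hx
  obtain ⟨e, he, rfl⟩ := List.mem_map.1 hx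
  obtain ⟨h1, h2, h3⟩ := h e he
  exact mul_nonneg h1 (Real.sin_nonneg_of_nonneg_of_le_pi (by linarith)
    (by linarith [Real.pi_gt_three]))

theorem ht_nonpos {c : List Edge} {s : ℝ} (h : ∀ e ∈ c, 0 ≤ e.1 ∧ e.2 ≤ s ∧ s ≤ e.2 + 3) :
    ht s c ≤ 0 := by
  induction c with
  | nil => simp [ht]
  | cons e c ih =>
    have h0 := ih fun e' he' => h e' (List.mem_cons_of_mem _ he')
    obtain ⟨h1, h2, h3⟩ := h e List.mem_cons_self
    have := Real.sin_nonpos_of_nonpos_of_neg_pi_le (x := e.2 - s) (by linarith)
      (by linarith [Real.pi_gt_three])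
    rw [ht, List.map_cons, List.sum_cons]
    rw [ht] at h0
    nlinarith

theorem small_of_ok {N : ℕ} {c : List Edge} (h : Ok N c) : Small c := fun e he =>
  ⟨(h.2.2 e he).1, (h.2.2 e he).2.2⟩

theorem small_sub {c d : List Edge} (h : Small c) (hd : ∀ e ∈ d, e ∈ c) : Small d :=
  fun e he => h e (hd e he)

theorem dir_bound {c : List Edge} (h : Small c) (hc : c ≠ []) : |dir c| ≤ 1 / 100 := by
  rw [abs_le]
  exact dir_mem h hc (fun e he => (abs_le.1 (h e he).2).1) (fun e he => (abs_le.1 (h e he).2).2)

end BStep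

open BStep

theorem not_cstep_of_wsorted {N : ℕ} {c c' : List Edge} (h : Ok N c) (hs : WSorted c) :
    ¬ CStep c c' := by
  rintro ⟨X, B, Y, rfl, ⟨h2, -, ⟨P, Q, rfl, hP⟩, -, -⟩, -⟩
  have hsm : Small (P ++ Q) := small_sub (small_of_ok h) fun e he => by
    simp only [List.append_assoc, List.mem_append] at he ⊢; tauto
  have hne : P ++ Q ≠ [] := by rintro h0; rw [h0] at h2; simp at h2
  have hdb := abs_le.1 (dir_bound hsm hne)
  have hw : WSorted (P ++ Q) := by
    have h1 : List.Pairwise _ (X ++ (P ++ Q) ++ Y) := hs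
    rw [List.pairwise_append, List.pairwise_append] at h1
    exact h1.1.2.1
  have h0 := ht_dir hsm
  set s := dir (P ++ Q) with hsdef
  rw [ht_append] at h0
  have hw' : List.Pairwise _ (P ++ Q) := hw
  rw [List.pairwise_append] at hw'
  obtain ⟨hwP, -, hPQ⟩ := hw'
  have hsmP : ∀ e ∈ P ++ Q, 0 ≤ e.1 ∧ -(1/100) ≤ e.2 ∧ e.2 ≤ 1/100 := fun e he =>
    ⟨(hsm e he).1.le, (abs_le.1 (hsm e he).2).1, (abs_le.1 (hsm e he).2).2⟩
  rcases List.eq_nil_or_concat P with rfl | ⟨P', e, rfl⟩
  · simp [ht] at hP
  · rw [List.concat_eq_append] at *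
    have hle : ∀ e' ∈ P' ++ [e], e'.2 ≤ e.2 := by
      intro e' he'
      rw [List.pairwise_append] at hwP
      rcases List.mem_append.1 he' with h1 | h1
      · exact hwP.2.2 e' h1 e (by simp)
      · simp at h1; rw [h1]
    rcases le_total e.2 s with hes | hes
    · have : ht s (P' ++ [e]) ≤ 0 := ht_nonpos fun e' he' => by
        obtain ⟨a1, a2, a3⟩ := hsmP e' (List.mem_append_left _ he')
        exact ⟨a1, (hle e' he').trans hes, by linarith⟩
      linarith
    · have : 0 ≤ ht s Q := ht_nonneg fun e' he' => by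
        obtain ⟨a1, a2, a3⟩ := hsmP e' (List.mem_append_right _ he')
        exact ⟨a1, hes.trans (hPQ e (by simp) e' he'), by linarith⟩
      linarith

namespace BStep

theorem cstep_iff {pre post : List (List Edge)} {B : List Edge}
    (hs : Small (pre ++ [B] ++ post).flatten) (hg : ∀ b ∈ pre ++ [B] ++ post, GoodBlock b)
    (hd : ((pre ++ [B] ++ post).map dir).Pairwise (· < ·)) (h1 : ∀ b ∈ pre, b.length = 1)
    (h2 : ∀ b ∈ post, b.length = 1) (hB : 2 ≤ B.length) (c' : List Edge) :
    CStep (pre ++ [B] ++ post).flatten c' ↔ c' = pre.flatten ++ flipBlock B ++ post.flatten := by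
  constructor
  · rintro ⟨X, B', Y, hc, hH, rfl⟩
    rw [hullBlock_iff hs hg hd hc] at hH
    obtain ⟨hB', bs₁, bs₂, heq, rfl, rfl⟩ := hH
    rw [List.append_assoc, List.append_assoc, List.singleton_append, List.singleton_append] at heq
    rcases List.append_eq_append_iff.1 heq with ⟨as, ha1, ha2⟩ | ⟨as, ha1, ha2⟩
    · cases as with
      | nil =>
        simp only [List.nil_append, List.cons.injEq] at ha2
        rw [ha1, List.append_nil, ha2.1, ha2.2]
      | cons a as =>
        simp only [List.cons_append, List.cons.injEq] at ha2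
        have := h2 B' (by rw [ha2.2]; simp)
        omega
    · cases as with
      | nil =>
        simp only [List.nil_append, List.cons.injEq] at ha2
        rw [ha1, List.append_nil, ha2.1, ha2.2]
      | cons a as =>
        simp only [List.cons_append, List.cons.injEq] at ha2
        have := h1 B' (by rw [ha1, ha2.1]; simp)
        omega
  · rintro rfl
    refine ⟨pre.flatten, B, post.flatten, by simp, ?_, rfl⟩
    rw [hullBlock_iff hs hg hd (by simp)]
    exact ⟨hB, pre, post, rfl, rfl, rfl⟩

theorem good_singleton (e : Edge) : GoodBlock [e] := by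
  refine ⟨by simp, fun P Q h hP hQ => ?_⟩
  have h1 : P.length + Q.length = 1 := by rw [← List.length_append, ← h]; rfl
  have h2 := List.length_pos_of_ne_nil hP
  have h3 := List.length_pos_of_ne_nil hQ
  omega

theorem flatten_singletons (l : List Edge) : (l.map fun e => [e]).flatten = l := by
  induction l with
  | nil => rfl
  | cons a l ih => simp [ih]

/-- the directions of a list of singletons -/
theorem pairwise_singletons {l : List Edge} (hs : Sorted l) (h : Small l) :
    ((l.map fun e => [e]).map dir).Pairwise (· < ·) := by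
  rw [List.map_map, List.pairwise_map]
  have hs' : List.Pairwise _ l := hs
  refine List.Pairwise.imp_of_mem ?_ hs'
  intro a b ha hb hab
  simp only [Function.comp_apply]
  rw [dir_singleton (small_sub h (by simpa using ha)), dir_singleton (small_sub h (by simpa using hb))]
  exact hab

theorem rest_small {N : ℕ} {τ lz lp lw : ℝ} {rest : List Edge} (hB : BState N τ lz lp lw rest) :
    Small rest := fun e he => by
  obtain ⟨h1, h2, h3, h4⟩ := hB.hrest' e he
  refine ⟨h1, abs_le.2 ⟨?_, h4⟩⟩
  have := hB.hτ
  nlinarith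

theorem ht_two (s : ℝ) (a b : Edge) : ht s [a, b] = a.1 * Real.sin (a.2 - s) + b.1 * Real.sin (b.2 - s) := by
  simp [ht]

theorem good_two {a b : Edge} (h : Small [a, b]) (hab : b.2 < a.2) : GoodBlock [a, b] := by
  refine ⟨by simp, fun P Q h1 hP hQ => ?_⟩
  have h2 : P = [a] := by
    cases P with
    | nil => exact absurd rfl hP
    | cons x P =>
      cases P with
      | nil => simp at h1; rw [h1.1]
      | cons y P =>
        exfalso
        have h3 : ([a, b] : List Edge).length = (x :: y :: P ++ Q).length := by rw [h1]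
        have h4 := List.length_pos_of_ne_nil hQ
        simp only [List.length_append, List.length_cons, List.length_nil] at h3
        omega
  rw [h2]
  have ha := h a (by simp)
  have hb := h b (by simp)
  have h3 := (dir_two (l₁ := a.1) (l₂ := b.1) ha.1 hb.1 ha.2 hb.2 hab).1
  have h4 := abs_le.1 (dir_bound h (by simp))
  have h5 := abs_le.1 ha.2
  apply ht_pos _ (by simp)
  intro e he
  simp only [List.mem_singleton] at he
  subst he
  exact ⟨ha.1, h3.2, by linarith [h4.1, h5.2]⟩

end BStep

/-- `α < β < p`: the only pocket is `[p, w]` -/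
theorem flip_right {N : ℕ} {τ lz lp lw : ℝ} {rest : List Edge} (hB : BState N τ lz lp lw rest)
    {α p β : ℝ} (hα : -(7 / 5) ≤ α) (h1 : α < β) (h2 : β < p) (hp : p ≤ 7 / 5) :
    ∃ p' β', CStep (bch τ lz lp lw rest α p β) (bch τ lz lp lw rest α p' β') ∧
      (∀ c', CStep (bch τ lz lp lw rest α p β) c' → c' = bch τ lz lp lw rest α p' β') ∧
      β ≤ β' ∧ β' ≤ β + 8 * lp * (p - β) ∧ β' - p' = p - β := by
  have hτ := hB.hτ
  have hok := bch_ok hB (α := α) (p := p) (β := β) (abs_le.2 ⟨hα, by linarith⟩)
    (abs_le.2 ⟨by linarith, hp⟩) (abs_le.2 ⟨by linarith, by linarith⟩)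
  have hsm := small_of_ok hok
  have hZ := hsm (lz, τ * α) (by simp [bch])
  have hP := hsm (lp, τ * p) (by simp [bch])
  have hW := hsm (lw, τ * β) (by simp [bch])
  have hlt : τ * β < τ * p := mul_lt_mul_of_pos_left h2 hτ
  have hlt2 : τ * α < τ * β := mul_lt_mul_of_pos_left h1 hτ
  obtain ⟨⟨d1, d2⟩, d3, -⟩ := dir_two (l₁ := lp) (l₂ := lw) hP.1 hW.1 hP.2 hW.2 hlt
  set d := dir [(lp, τ * p), (lw, τ * β)] with hd
  have hfl : (([[(lz, τ * α)]] ++ [[(lp, τ * p), (lw, τ * β)]] ++ rest.map fun e => [e]) :
      List (List Edge)).flatten = bch τ lz lp lw rest α p β := by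
    simp only [List.flatten_append, flatten_singletons]
    simp [bch]
  have hrs := rest_small hB
  have key := cstep_iff (pre := [[(lz, τ * α)]]) (B := [(lp, τ * p), (lw, τ * β)])
    (post := rest.map fun e => [e]) (by rw [hfl]; exact hsm)
    (by
      intro b hb
      simp only [List.append_assoc, List.mem_append, List.mem_singleton, List.mem_map] at hb
      rcases hb with rfl | rfl | ⟨e, -, rfl⟩
      · exact good_singleton _
      · exact good_two (small_sub hsm (by intro e he; simp [bch] at he ⊢; tauto)) hlt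
      · exact good_singleton _)
    (by
      rw [List.map_append, List.map_append, List.pairwise_append, List.pairwise_append]
      have hz : dir [(lz, τ * α)] = τ * α :=
        dir_singleton (small_sub hsm (by intro e he; simp [bch] at he ⊢; tauto))
      have hr : ∀ b ∈ (rest.map fun e => [e]).map dir, τ * p < b := by
        intro b hb
        simp only [List.map_map, List.mem_map, Function.comp_apply] at hb
        obtain ⟨e, he, rfl⟩ := hb
        rw [dir_singleton (small_sub hrs (by simpa using he))]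
        have := (hB.hrest' e he).2.2.1
        nlinarith
      refine ⟨⟨by simp, by simp, ?_⟩, pairwise_singletons hB.hrest hrs, ?_⟩
      · intro a ha b hb
        simp only [List.map_cons, List.map_nil, List.mem_singleton] at ha hb
        rw [ha, hb, hz, ← hd]; linarith
      · intro a ha b hb
        have := hr b hb
        simp only [List.map_cons, List.map_nil, List.mem_append, List.mem_singleton] at ha
        rcases ha with rfl | rfl
        · rw [hz]; linarith
        · rw [← hd]; linarith)
    (by simp) (by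
      intro b hb
      obtain ⟨e, -, rfl⟩ := List.mem_map.1 hb
      rfl) (by simp)
  rw [hfl] at key
  have hres : ([[(lz, τ * α)]] : List (List Edge)).flatten ++
      flipBlock [(lp, τ * p), (lw, τ * β)] ++ (rest.map fun e => [e]).flatten =
      bch τ lz lp lw rest α (2 * (d / τ) - p) (2 * (d / τ) - β) := by
    rw [flatten_singletons]
    have e1 : τ * (2 * (d / τ) - p) = 2 * d - τ * p := by field_simp
    have e2 : τ * (2 * (d / τ) - β) = 2 * d - τ * β := by field_simp
    simp only [bch, flipBlock, refl, List.map_cons, List.map_nil, e1, e2, ← hd]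
    rfl
  rw [hres] at key
  have hdt : d / τ - β = (d - τ * β) / τ := by field_simp
  refine ⟨2 * (d / τ) - p, 2 * (d / τ) - β, (key _).2 rfl, fun c' hc' => (key c').1 hc', ?_, ?_, by ring⟩
  · have : 0 ≤ d / τ - β := by rw [hdt]; exact div_nonneg (by linarith) hτ.le
    linarith
  · have h3 : d / τ - β ≤ 2 * (lp / lw) * (p - β) := by
      rw [hdt, div_le_iff₀ hτ]
      calc d - τ * β ≤ 2 * (lp / lw) * (τ * p - τ * β) := d3
        _ = 2 * (lp / lw) * (p - β) * τ := by ring
    have h4 : lp / lw ≤ 2 * lp := by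
      rw [div_le_iff₀ hW.1]
      have := hB.hlw.1
      have := hB.hlp.1
      nlinarith
    have h5 : lp / lw * (p - β) ≤ 2 * lp * (p - β) := mul_le_mul_of_nonneg_right h4 (by linarith)
    linarith

/-- `p < α < β`: the only pocket is `[Z, p]` -/
theorem flip_left {N : ℕ} {τ lz lp lw : ℝ} {rest : List Edge} (hB : BState N τ lz lp lw rest)
    {α p β : ℝ} (hp : -(7 / 5) ≤ p) (h1 : p < α) (h2 : α < β) (hβ : β ≤ 7 / 5) :
    ∃ α' p', CStep (bch τ lz lp lw rest α p β) (bch τ lz lp lw rest α' p' β) ∧
      (∀ c', CStep (bch τ lz lp lw rest α p β) c' → c' = bch τ lz lp lw rest α' p' β) ∧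
      α' ≤ α ∧ α - 8 * lp * (α - p) ≤ α' ∧ p' - α' = α - p := by
  have hτ := hB.hτ
  have hok := bch_ok hB (α := α) (p := p) (β := β) (abs_le.2 ⟨by linarith, by linarith⟩)
    (abs_le.2 ⟨by linarith, by linarith⟩) (abs_le.2 ⟨by linarith, by linarith⟩)
  have hsm := small_of_ok hok
  have hZ := hsm (lz, τ * α) (by simp [bch])
  have hP := hsm (lp, τ * p) (by simp [bch])
  have hW := hsm (lw, τ * β) (by simp [bch])
  have hlt : τ * p < τ * α := mul_lt_mul_of_pos_left h1 hτ
  have hlt2 : τ * α < τ * β := mul_lt_mul_of_pos_left h2 hτ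
  obtain ⟨⟨d1, d2⟩, -, d3⟩ := dir_two (l₁ := lz) (l₂ := lp) hZ.1 hP.1 hZ.2 hP.2 hlt
  set d := dir [(lz, τ * α), (lp, τ * p)] with hd
  have hfl : (([] : List (List Edge)) ++ [[(lz, τ * α), (lp, τ * p)]] ++
      ([(lw, τ * β)] :: rest.map fun e => [e])).flatten = bch τ lz lp lw rest α p β := by
    simp only [List.flatten_append, List.flatten_cons, flatten_singletons]
    simp [bch]
  have hrs := rest_small hB
  have hw : dir [(lw, τ * β)] = τ * β :=
    dir_singleton (small_sub hsm (by intro e he; simp [bch] at he ⊢; tauto))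
  have hr : ∀ b ∈ (rest.map fun e => [e]).map dir, τ * β < b := by
    intro b hb
    simp only [List.map_map, List.mem_map, Function.comp_apply] at hb
    obtain ⟨e, he, rfl⟩ := hb
    rw [dir_singleton (small_sub hrs (by simpa using he))]
    have := (hB.hrest' e he).2.2.1
    nlinarith
  have key := cstep_iff (pre := []) (B := [(lz, τ * α), (lp, τ * p)])
    (post := [(lw, τ * β)] :: rest.map fun e => [e]) (by rw [hfl]; exact hsm)
    (by
      intro b hb
      simp only [List.nil_append, List.singleton_append, List.mem_cons, List.mem_map] at hb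
      rcases hb with rfl | rfl | ⟨e, -, rfl⟩
      · exact good_two (small_sub hsm (by intro e he; simp [bch] at he ⊢; tauto)) hlt
      · exact good_singleton _
      · exact good_singleton _)
    (by
      simp only [List.nil_append, List.singleton_append, List.map_cons, List.pairwise_cons]
      refine ⟨?_, ?_, pairwise_singletons hB.hrest hrs⟩
      · intro b hb
        rw [List.mem_cons] at hb
        rcases hb with rfl | hb
        · rw [hw, ← hd]; linarith
        · have := hr b hb; rw [← hd]; linarith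
      · intro b hb
        rw [hw]; exact hr b hb)
    (by simp) (by
      intro b hb
      rcases List.mem_cons.1 hb with rfl | hb
      · rfl
      · obtain ⟨e, -, rfl⟩ := List.mem_map.1 hb
        rfl) (by simp)
  rw [hfl] at key
  have hres : ([] : List (List Edge)).flatten ++
      flipBlock [(lz, τ * α), (lp, τ * p)] ++ ([(lw, τ * β)] :: rest.map fun e => [e]).flatten =
      bch τ lz lp lw rest (2 * (d / τ) - α) (2 * (d / τ) - p) β := by
    rw [List.flatten_cons, flatten_singletons]
    have e1 : τ * (2 * (d / τ) - p) = 2 * d - τ * p := by field_simp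
    have e2 : τ * (2 * (d / τ) - α) = 2 * d - τ * α := by field_simp
    simp only [bch, flipBlock, refl, List.map_cons, List.map_nil, e1, e2, ← hd]
    rfl
  rw [hres] at key
  have hdt : α - d / τ = (τ * α - d) / τ := by field_simp
  refine ⟨2 * (d / τ) - α, 2 * (d / τ) - p, (key _).2 rfl, fun c' hc' => (key c').1 hc', ?_, ?_, by ring⟩
  · have : 0 ≤ α - d / τ := by rw [hdt]; exact div_nonneg (by linarith) hτ.le
    linarith
  · have h3 : α - d / τ ≤ 2 * (lp / lz) * (α - p) := by
      rw [hdt, div_le_iff₀ hτ]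
      calc τ * α - d ≤ 2 * (lp / lz) * (τ * α - τ * p) := d3
        _ = 2 * (lp / lz) * (α - p) * τ := by ring
    have h4 : lp / lz ≤ 2 * lp := by
      rw [div_le_iff₀ hZ.1]
      have := hB.hlz.1
      have := hB.hlp.1
      nlinarith
    have h5 : lp / lz * (α - p) ≤ 2 * lp * (α - p) := mul_le_mul_of_nonneg_right h4 (by linarith)
    linarith

/-- `β < α < p` with `64 lp ≤ α - β`: the only pocket is `[Z, p, w]` -/
theorem flip_all {N : ℕ} {τ lz lp lw : ℝ} {rest : List Edge} (hB : BState N τ lz lp lw rest)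
    {α p β : ℝ} (hβ : -(7 / 5) ≤ β) (h1 : β < α) (h2 : α < p) (hp : p ≤ 7 / 5)
    (hlp : 64 * lp ≤ α - β) :
    ∃ s, β < s ∧ s < α ∧
      CStep (bch τ lz lp lw rest α p β) (bch τ lz lp lw rest (2 * s - α) (2 * s - p) (2 * s - β)) ∧
      (∀ c', CStep (bch τ lz lp lw rest α p β) c' →
        c' = bch τ lz lp lw rest (2 * s - α) (2 * s - p) (2 * s - β)) := by
  have hτ := hB.hτ
  have hok := bch_ok hB (α := α) (p := p) (β := β) (abs_le.2 ⟨by linarith, by linarith⟩)
    (abs_le.2 ⟨by linarith, by linarith⟩) (abs_le.2 ⟨by linarith, by linarith⟩)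
  have hsm := small_of_ok hok
  have hZ := hsm (lz, τ * α) (by simp [bch])
  have hP := hsm (lp, τ * p) (by simp [bch])
  have hW := hsm (lw, τ * β) (by simp [bch])
  have hlt : τ * β < τ * α := mul_lt_mul_of_pos_left h1 hτ
  have hlt2 : τ * α < τ * p := mul_lt_mul_of_pos_left h2 hτ
  set B : List Edge := [(lz, τ * α), (lp, τ * p), (lw, τ * β)] with hBd
  have hBs : Small B := small_sub hsm (by intro e he; simp [bch, hBd] at he ⊢; tauto)
  have hBne : B ≠ [] := by simp [hBd]
  set d := dir B with hd
  have hdb := abs_le.1 (dir_bound hBs hBne)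
  rw [← hd] at hdb
  have hd0 : ht d B = 0 := ht_dir hBs
  have hdl : τ * β < d := by
    apply lt_dir hBs
    · intro e he
      simp only [hBd, List.mem_cons, List.not_mem_nil, or_false] at he
      rcases he with rfl | rfl | rfl
      · exact hlt.le
      · simp only; linarith
      · exact le_rfl
    · exact ⟨(lz, τ * α), by simp [hBd], hlt⟩
  have hdz := abs_le.1 hZ.2
  have hdp := abs_le.1 hP.2
  have hdw := abs_le.1 hW.2
  simp only at hdz hdp hdw
  have hexp : lz * Real.sin (τ * α - d) + (lp * Real.sin (τ * p - d) + lw * Real.sin (τ * β - d)) = 0 := by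
    have := hd0
    simp only [ht, hBd, List.map_cons, List.map_nil, List.sum_cons, List.sum_nil, add_zero] at this
    exact this
  have hdu : d < τ * α := by
    by_contra hcon
    push Not at hcon
    have s1 : Real.sin (τ * α - d) ≤ 0 := Real.sin_nonpos_of_nonpos_of_neg_pi_le (by linarith)
      (by linarith [Real.pi_gt_three, hdb.2, hdz.1])
    have s2 : Real.sin (τ * p - d) ≤ τ * (p - α) := by
      rcases le_total 0 (τ * p - d) with h3 | h3
      · have := Real.sin_le h3; linarith
      · have := Real.sin_nonpos_of_nonpos_of_neg_pi_le h3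
          (by linarith [Real.pi_gt_three, hdb.2, hdp.1])
        nlinarith
    have hy0 : 0 < d - τ * β := by linarith
    have hy1 : d - τ * β ≤ 1 := by linarith [hdb.2, hdw.1]
    have s3 : 3 / 4 * (d - τ * β) ≤ Real.sin (d - τ * β) := by
      have h3 := Real.sin_gt_sub_cube hy0
      have h4 : (d - τ * β) ^ 3 ≤ d - τ * β := by
        have h5 : (d - τ * β) ^ 2 ≤ 1 := by nlinarith
        nlinarith
      linarith
    have s4 : Real.sin (τ * β - d) = -Real.sin (d - τ * β) := by
      rw [← Real.sin_neg]; congr 1; ring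
    rw [s4] at hexp
    have a1 : lz * Real.sin (τ * α - d) ≤ 0 := mul_nonpos_of_nonneg_of_nonpos hZ.1.le s1
    have a2 : lp * Real.sin (τ * p - d) ≤ lp * (τ * (p - α)) :=
      mul_le_mul_of_nonneg_left s2 hP.1.le
    have a3 : 1 / 2 * (3 / 4 * (d - τ * β)) ≤ lw * Real.sin (d - τ * β) :=
      mul_le_mul hB.hlw.1 s3 (by positivity) hW.1.le
    have a4 : τ * (α - β) ≤ d - τ * β := by linarith
    have a5 : τ * (64 * lp) ≤ τ * (α - β) := mul_le_mul_of_nonneg_left hlp hτ.le
    have a6 : lp * (τ * (p - α)) ≤ lp * (τ * 3) := by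
      apply mul_le_mul_of_nonneg_left _ hP.1.le
      apply mul_le_mul_of_nonneg_left _ hτ.le
      linarith
    have a7 : 0 < τ * lp := mul_pos hτ hP.1
    nlinarith
  have hfl : (([] : List (List Edge)) ++ [B] ++ (rest.map fun e => [e])).flatten =
      bch τ lz lp lw rest α p β := by
    simp only [List.flatten_append, flatten_singletons]
    simp [bch, hBd]
  have hrs := rest_small hB
  have hr : ∀ b ∈ (rest.map fun e => [e]).map dir, τ * p < b := by
    intro b hb
    simp only [List.map_map, List.mem_map, Function.comp_apply] at hb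
    obtain ⟨e, he, rfl⟩ := hb
    rw [dir_singleton (small_sub hrs (by simpa using he))]
    have := (hB.hrest' e he).2.2.1
    nlinarith
  have hgood : GoodBlock B := by
    refine ⟨hBne, fun P Q hPQ hP0 hQ0 => ?_⟩
    have hp1 : 0 < ht d [(lz, τ * α)] := by
      apply ht_pos _ (by simp)
      intro e he
      simp only [List.mem_singleton] at he
      subst he
      exact ⟨hZ.1, hdu, by simp only; linarith [hdb.1, hdz.2]⟩
    have hn1 : ht d [(lw, τ * β)] < 0 := by
      apply ht_neg _ (by simp)
      intro e he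
      simp only [List.mem_singleton] at he
      subst he
      exact ⟨hW.1, hdl, by simp only; linarith [hdb.2, hdw.1]⟩
    have hp2 : 0 < ht d [(lz, τ * α), (lp, τ * p)] := by
      have h3 : B = [(lz, τ * α), (lp, τ * p)] ++ [(lw, τ * β)] := rfl
      rw [h3, ht_append] at hd0
      linarith
    rw [← hd]
    match P, Q, hPQ, hP0, hQ0 with
    | [], _, _, hP0, _ => exact absurd rfl hP0
    | [x], _, hPQ, _, _ =>
      simp only [hBd, List.cons_append, List.cons.injEq] at hPQ
      rw [← hPQ.1]; exact hp1
    | [x, y], _, hPQ, _, _ =>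
      simp only [hBd, List.cons_append, List.cons.injEq] at hPQ
      rw [← hPQ.1, ← hPQ.2.1]; exact hp2
    | x :: y :: z :: P, Q, hPQ, _, hQ0 =>
      exfalso
      have h3 := congrArg List.length hPQ
      have h4 := List.length_pos_of_ne_nil hQ0
      simp only [hBd, List.length_append, List.length_cons, List.length_nil] at h3
      omega
  have key := cstep_iff (pre := []) (B := B)
    (post := rest.map fun e => [e]) (by rw [hfl]; exact hsm)
    (by
      intro b hb
      simp only [List.nil_append, List.singleton_append, List.mem_cons, List.mem_map] at hb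
      rcases hb with rfl | ⟨e, -, rfl⟩
      · exact hgood
      · exact good_singleton _)
    (by
      simp only [List.nil_append, List.singleton_append, List.map_cons, List.pairwise_cons]
      refine ⟨?_, pairwise_singletons hB.hrest hrs⟩
      intro b hb
      have := hr b hb; rw [← hd]; linarith)
    (by simp) (by
      intro b hb
      obtain ⟨e, -, rfl⟩ := List.mem_map.1 hb
      rfl) (by simp [hBd])
  rw [hfl] at key
  have hres : ([] : List (List Edge)).flatten ++
      flipBlock B ++ (rest.map fun e => [e]).flatten =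
      bch τ lz lp lw rest (2 * (d / τ) - α) (2 * (d / τ) - p) (2 * (d / τ) - β) := by
    rw [flatten_singletons]
    have e1 : τ * (2 * (d / τ) - p) = 2 * d - τ * p := by field_simp
    have e2 : τ * (2 * (d / τ) - α) = 2 * d - τ * α := by field_simp
    have e3 : τ * (2 * (d / τ) - β) = 2 * d - τ * β := by field_simp
    simp only [bch, flipBlock, refl, e1, e2, e3, ← hd]
    simp [hBd, refl]
  rw [hres] at key
  refine ⟨d / τ, ?_, ?_, (key _).2 rfl, fun c' hc' => (key c').1 hc'⟩
  · rw [lt_div_iff₀ hτ]; linarith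
  · rw [div_lt_iff₀ hτ]; linarith

end Pool.Agent.Helper20.Flip
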