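import Pool.Agent.Helper4.Flip.BStep

/-!
# Many bounces are possible (module FLIP-BYES of MP_bfe50c)
-/

set_option autoImplicit false

namespace Pool.Agent.Helper20.Flip

namespace BYes

/-- the energy does not increase -/
theorem energy {c U U' d : ℝ} (hc : 0 ≤ c) (hU : 0 ≤ U) (h1 : U ≤ U') (h2 : U' ≤ U + c * d) :
    U' ^ 2 + c * (d - U') ^ 2 + c * U' * (d - U') ≤ U ^ 2 + c * d ^ 2 + c * U * d := by
  have h3 : 0 ≤ (U' + U) * (U + c * d - U') := mul_nonneg (by linarith) (by linarith)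
  nlinarith

theorem le_quarter {c U d : ℝ} (hc : 0 ≤ c) (hU : 0 ≤ U) (hd : 0 ≤ d)
    (h : U ^ 2 + c * d ^ 2 + c * U * d ≤ 1 / 16) : U ≤ 1 / 4 := by
  have h1 : 0 ≤ c * d ^ 2 := by positivity
  have h2 : 0 ≤ c * U * d := by positivity
  nlinarith

/-- the states of the bounce phase -/
structure St (lp U₀ α p β d : ℝ) : Prop where
  hU : U₀ ≤ β - α
  hα : α ≤ 1 / 8
  hβ : -(1 / 8) ≤ β
  hd0 : 0 < d
  hd : d ≤ 3 / 5
  he : (β - α) ^ 2 + 8 * lp * d ^ 2 + 8 * lp * (β - α) * d ≤ 1 / 16
  hp : p = β + d ∨ p = α - d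

theorem cond_step {lp U U' d : ℝ} {k : ℕ} (hlp : 0 < lp) (hd1 : d ≤ 3 / 5)
    (h2 : U' ≤ U + 8 * lp * d) (hk : ((k + 1 : ℕ) : ℝ) * U + 8 * lp * ((k + 1 : ℕ) : ℝ) ^ 2 < d) :
    (k : ℝ) * U' + 8 * lp * (k : ℝ) ^ 2 < d - U' := by
  push_cast at hk
  have h3 : 8 * lp * d ≤ 8 * lp := by nlinarith
  have h4 : U' ≤ U + 8 * lp := by linarith
  have hk0 : (0 : ℝ) ≤ k := Nat.cast_nonneg k
  have h5 : ((k : ℝ) + 1) * U' ≤ (k + 1) * (U + 8 * lp) :=
    mul_le_mul_of_nonneg_left h4 (by linarith)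
  have h6 : 0 ≤ lp * k := by positivity
  nlinarith

theorem main {N : ℕ} {τ lz lp lw : ℝ} {rest : List Edge} (hB : BState N τ lz lp lw rest)
    {U₀ : ℝ} (hU₀ : 0 < U₀) (n : ℕ) : ∀ (k : ℕ) (α p β d : ℝ), St lp U₀ α p β d → d ≤ n * U₀ →
      (k : ℝ) * (β - α) + 8 * lp * (k : ℝ) ^ 2 < d →
      ∃ m c', k ≤ m ∧ CSeq N m (bch τ lz lp lw rest α p β) c' ∧ WSorted c' := by
  have hlp := hB.hlp.1
  have hlp2 := hB.hlp.2
  induction n with
  | zero =>
    intro k α p β d h h1
    simp at h1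
    have := h.hd0
    linarith
  | succ n ih =>
    intro k α p β d h h1 h2
    have hU := h.hU
    have hα := h.hα
    have hβ := h.hβ
    have hd0 := h.hd0
    have hd := h.hd
    have q1 := le_quarter (c := 8 * lp) (by linarith) (by linarith) hd0.le h.he
    push_cast at h1
    -- a general step
    have gen : ∀ α' p' β' : ℝ, CStep (bch τ lz lp lw rest α p β) (bch τ lz lp lw rest α' p' β') →
        β - α ≤ β' - α' → β' - α' ≤ β - α + 8 * lp * d → α' ≤ 1 / 8 → -(1 / 8) ≤ β' →
        (p' = α' - (d - (β' - α')) ∨ p' = β' + (d - (β' - α'))) →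
        ∃ m c', k ≤ m ∧ CSeq N m (bch τ lz lp lw rest α p β) c' ∧ WSorted c' := by
      intro α' p' β' hst g1 g2 g3 g4 g5
      have en := energy (c := 8 * lp) (U := β - α) (U' := β' - α') (d := d) (by linarith)
        (by linarith) g1 g2
      have g6 : 8 * lp * d ≤ 8 / 100 * (3 / 5) := by nlinarith
      have hok : Ok N (bch τ lz lp lw rest α' p' β') := by
        rcases g5 with g5 | g5
        · exact bch_ok hB (abs_le.2 ⟨by linarith, by linarith⟩)
            (abs_le.2 ⟨by linarith, by linarith⟩) (abs_le.2 ⟨by linarith, by linarith⟩)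
        · exact bch_ok hB (abs_le.2 ⟨by linarith, by linarith⟩)
            (abs_le.2 ⟨by linarith, by linarith⟩) (abs_le.2 ⟨by linarith, by linarith⟩)
      rcases lt_or_ge 0 (d - (β' - α')) with h9 | h9
      · have hst' : St lp U₀ α' p' β' (d - (β' - α')) :=
          ⟨by linarith, g3, g4, h9, by linarith, en.trans h.he, g5.symm⟩
        cases k with
        | zero =>
          obtain ⟨m, c', -, hm, hw⟩ := ih 0 α' p' β' _ hst' (by linarith) (by simpa using h9)
          exact ⟨m + 1, c', by omega, CSeq.step hst hok hm, hw⟩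
        | succ k =>
          obtain ⟨m, c', hkm, hm, hw⟩ := ih k α' p' β' _ hst' (by linarith)
            (cond_step hlp hd g2 h2)
          exact ⟨m + 1, c', by omega, CSeq.step hst hok hm, hw⟩
      · have hw : WSorted (bch τ lz lp lw rest α' p' β') := by
          apply bch_wsorted hB
          · rcases g5 with g5 | g5 <;> linarith
          · rcases g5 with g5 | g5 <;> linarith
          · linarith
        cases k with
        | zero => exact ⟨1, _, by omega, CSeq.step hst hok (CSeq.refl _), hw⟩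
        | succ k =>
          exfalso
          have := cond_step hlp hd g2 h2
          have h10 : 0 ≤ (k : ℝ) * (β' - α') := mul_nonneg (Nat.cast_nonneg k) (by linarith)
          have h11 : 0 ≤ 8 * lp * (k : ℝ) ^ 2 := by positivity
          linarith
    rcases h.hp with hp | hp
    · obtain ⟨p', β', hst, -, b1, b2, b3⟩ := flip_right hB (α := α) (p := p) (β := β)
        (by linarith) (by linarith) (by linarith) (by linarith)
      have e1 : p - β = d := by linarith
      rw [e1] at b2 b3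
      exact gen α p' β' hst (by linarith) (by linarith) hα (by linarith) (Or.inl (by linarith))
    · obtain ⟨α', p', hst, -, b1, b2, b3⟩ := flip_left hB (α := α) (p := p) (β := β)
        (by linarith) (by linarith) (by linarith) (by linarith)
      have e1 : α - p = d := by linarith
      rw [e1] at b2 b3
      exact gen α' p' β hst (by linarith) (by linarith) (by linarith) hβ (Or.inr (by linarith))

end BYes

open BYes in
theorem bounce_yes {N : ℕ} {τ lz lp lw : ℝ} {rest : List Edge} (hB : BState N τ lz lp lw rest)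
    {u α p β : ℝ} (hα : |α| ≤ 1 / 32) (hβ : |β| ≤ 1 / 32)
    (hp : |p - 1 / 2| ≤ 1 / 32) (hαβ : 0 < β - α) (hαβ' : β - α ≤ u) {k : ℕ}
    (hk : k * u ≤ 1 / 8) (hk' : 32 * lp * k ^ 2 ≤ 1) :
    ∃ m c', k ≤ m ∧ CSeq N m (bch τ lz lp lw rest α p β) c' ∧ WSorted c' := by
  have hlp := hB.hlp.1
  have hlp2 := hB.hlp.2
  rw [abs_le] at hα hβ hp
  obtain ⟨n, hn⟩ := exists_nat_ge ((p - β) / (β - α))
  rw [div_le_iff₀ hαβ] at hn
  refine main hB hαβ n k α p β (p - β) ?_ hn ?_
  · refine ⟨le_rfl, by linarith, by linarith, by linarith, by linarith, ?_, Or.inl (by ring)⟩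
    have h1 : (β - α) ^ 2 ≤ (1 / 16) ^ 2 := by
      apply pow_le_pow_left₀ hαβ.le; linarith
    have h2 : (p - β) ^ 2 ≤ (9 / 16) ^ 2 := by
      apply pow_le_pow_left₀ (by linarith); linarith
    have h3 : (β - α) * (p - β) ≤ 1 / 16 * (9 / 16) :=
      mul_le_mul (by linarith) (by linarith) (by linarith) (by norm_num)
    have h4 : 8 * lp * (p - β) ^ 2 ≤ 8 / 100 * (9 / 16) ^ 2 :=
      mul_le_mul (by linarith) h2 (by positivity) (by norm_num)
    have h5 : 8 * lp * ((β - α) * (p - β)) ≤ 8 / 100 * (1 / 16 * (9 / 16)) :=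
      mul_le_mul (by linarith) h3 (mul_nonneg hαβ.le (by linarith)) (by norm_num)
    nlinarith
  · have h1 : (k : ℝ) * (β - α) ≤ k * u := mul_le_mul_of_nonneg_left hαβ' (Nat.cast_nonneg k)
    linarith

end Pool.Agent.Helper20.Flip
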