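import Pool.Agent.Helper20.Flip.Chain

/-!
# Module GEO1: polygons of admissible chains are simple, counterclockwise, and convex when sorted
-/

set_option autoImplicit false

namespace Pool.Agent.Helper20.Flip

namespace Geo1

lemma vec_nil : vec [] = 0 := by
  simp [vec]

lemma vec_append (c d : List Edge) : vec (c ++ d) = vec c + vec d := by
  simp [vec]

lemma vec_cons (e : Edge) (d : List Edge) :
    vec (e :: d) = (e.1 * Real.cos e.2, e.1 * Real.sin e.2) + vec d := by
  simp [vec]

/-- trigonometric bounds for a single edge -/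
lemma edge_bounds {e : Edge} (h0 : 0 < e.1) (h2 : e.1 ≤ 2) (ha : |e.2| ≤ 1 / 100) :
    0 < e.1 * Real.cos e.2 ∧ e.1 * Real.cos e.2 ≤ 2 ∧
      |e.1 * Real.sin e.2| ≤ e.1 * Real.cos e.2 / 50 := by
  have hc : (99 / 100 : ℝ) ≤ Real.cos e.2 := by
    have h1 := Real.one_sub_sq_div_two_le_cos (x := e.2)
    have h2 : e.2 ^ 2 ≤ (1 / 100) ^ 2 := by
      rw [← sq_abs]
      exact pow_le_pow_left₀ (abs_nonneg _) ha 2
    nlinarith
  have hc1 := Real.cos_le_one e.2
  have hs : |Real.sin e.2| ≤ 1 / 100 := Real.abs_sin_le_abs.trans ha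
  refine ⟨by positivity, by nlinarith, ?_⟩
  rw [abs_mul, abs_of_pos h0]
  have : |Real.sin e.2| ≤ Real.cos e.2 / 50 := by linarith
  calc e.1 * |Real.sin e.2| ≤ e.1 * (Real.cos e.2 / 50) :=
        mul_le_mul_of_nonneg_left this h0.le
    _ = _ := by ring

/-- the bounds for chains -/
lemma vec_bounds (d : List Edge) (h : ∀ e ∈ d, 0 < e.1 ∧ e.1 ≤ 2 ∧ |e.2| ≤ 1 / 100) :
    0 ≤ (vec d).1 ∧ (vec d).1 ≤ 2 * d.length ∧ |(vec d).2| ≤ (vec d).1 / 50 ∧
      (d ≠ [] → 0 < (vec d).1) := by
  induction d with
  | nil => simp [vec_nil]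
  | cons e d ih =>
    obtain ⟨h1, h2, h3, -⟩ := ih fun e he => h e (List.mem_cons_of_mem _ he)
    obtain ⟨a, b, c⟩ := h e List.mem_cons_self
    obtain ⟨g1, g2, g3⟩ := edge_bounds a b c
    rw [vec_cons]
    simp only [Prod.fst_add, Prod.snd_add, List.length_cons, Nat.cast_add, Nat.cast_one]
    refine ⟨by linarith, by linarith, ?_, fun _ => by linarith⟩
    calc |e.1 * Real.sin e.2 + (vec d).2| ≤ |e.1 * Real.sin e.2| + |(vec d).2| := abs_add_le _ _
      _ ≤ _ := by linarith

section

variable {N : ℕ} {c : List Edge}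

/-- the part of the chain between two vertices -/
lemma take_split (c : List Edge) {i j : ℕ} (hij : i ≤ j) :
    c.take j = c.take i ++ (c.drop i).take (j - i) := by
  conv_lhs => rw [show j = i + (j - i) by omega]
  rw [List.take_add]

lemma mid_vec (c : List Edge) {i j : ℕ} (hij : i ≤ j) :
    vec (c.take j) = vec (c.take i) + vec ((c.drop i).take (j - i)) := by
  rw [take_split c hij, vec_append]

lemma mem_mid {c : List Edge} {i k : ℕ} {e : Edge} (h : e ∈ (c.drop i).take k) : e ∈ c :=
  List.mem_of_mem_drop (List.mem_of_mem_take h)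

lemma bd (h : Ok N c) {i j : ℕ} (hij : i ≤ j) (hj : j ≤ N) :
    (vec (c.take i)).1 ≤ (vec (c.take j)).1 ∧
    |(vec (c.take j)).2 - (vec (c.take i)).2| ≤
      ((vec (c.take j)).1 - (vec (c.take i)).1) / 50 ∧
    (i < j → (vec (c.take i)).1 < (vec (c.take j)).1) := by
  obtain ⟨h1, -, h3, h4⟩ := vec_bounds ((c.drop i).take (j - i))
    fun e he => h.2.2 e (mem_mid he)
  rw [mid_vec c hij]
  simp only [Prod.fst_add, Prod.snd_add, add_sub_cancel_left]
  refine ⟨by linarith, h3, fun hlt => ?_⟩
  have : (c.drop i).take (j - i) ≠ [] := by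
    intro h0
    have := congrArg List.length h0
    simp only [List.length_take, List.length_drop, h.1, List.length_nil] at this
    omega
  linarith [h4 this]

lemma x0 (c : List Edge) : vec (c.take 0) = 0 := by simp [vec_nil]

lemma xN (h : Ok N c) : (vec (c.take N)).1 ≤ 2 * N := by
  obtain ⟨-, h2, -, -⟩ := vec_bounds (c.take N) fun e he => h.2.2 e (List.mem_of_mem_take he)
  rw [List.length_take, h.1, min_self] at h2
  exact h2

lemma yb (h : Ok N c) {i : ℕ} (hi : i ≤ N) :
    0 ≤ (vec (c.take i)).1 ∧ |(vec (c.take i)).2| ≤ (vec (c.take i)).1 / 50 ∧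
    (vec (c.take i)).1 ≤ 2 * N := by
  obtain ⟨h1, h2, -⟩ := bd h (Nat.zero_le i) hi
  rw [x0] at h1 h2
  simp only [Prod.fst_zero, Prod.snd_zero, sub_zero] at h1 h2
  exact ⟨h1, h2, (bd h hi le_rfl).1.trans (xN h)⟩

/-- vertices of the polygon -/
lemma poly_nat (c : List Edge) {k : ℕ} (hk : k ≤ N) :
    polyOf N c (k : ZMod (N + 2)) = vec (c.take k) := by
  have : ((k : ℕ) : ZMod (N + 2)).val = k := ZMod.val_cast_of_lt (by omega)
  rw [polyOf, this, if_pos hk]

lemma poly_apex (c : List Edge) :
    polyOf N c ((N + 1 : ℕ) : ZMod (N + 2)) = (0, 4 * ((N : ℝ) + 1)) := by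
  have : ((N + 1 : ℕ) : ZMod (N + 2)).val = N + 1 := ZMod.val_cast_of_lt (by omega)
  rw [polyOf, this, if_neg (by omega)]

lemma cast_last : ((N + 1 : ℕ) : ZMod (N + 2)) + 1 = ((0 : ℕ) : ZMod (N + 2)) := by
  have : ((N + 1 : ℕ) : ZMod (N + 2)) + 1 = ((N + 2 : ℕ) : ZMod (N + 2)) := by push_cast; ring
  rw [this, ZMod.natCast_self]; simp

/-- every residue is the cast of its value -/
lemma exists_nat (i : ZMod (N + 2)) : ∃ a : ℕ, a < N + 2 ∧ i = (a : ZMod (N + 2)) :=
  ⟨i.val, ZMod.val_lt i, (ZMod.natCast_zmod_val i).symm⟩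

lemma seg_fst_snd {A B X : Pt} (h : X ∈ segment ℝ A B) :
    ∃ t : ℝ, 0 ≤ t ∧ t ≤ 1 ∧ X.1 = (1 - t) * A.1 + t * B.1 ∧ X.2 = (1 - t) * A.2 + t * B.2 := by
  obtain ⟨s, t, hs, ht, hst, rfl⟩ := h
  refine ⟨t, ht, by linarith, ?_, ?_⟩
  · simp only [Prod.fst_add, Prod.smul_fst, smul_eq_mul]
    rw [show s = 1 - t by linarith]
  · simp only [Prod.snd_add, Prod.smul_snd, smul_eq_mul]
    rw [show s = 1 - t by linarith]

/-- the chain edge `k` -/
lemma chain_seg (h : Ok N c) {k : ℕ} (hk : k < N) {X : Pt}
    (hX : X ∈ segment ℝ (vec (c.take k)) (vec (c.take (k + 1)))) :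
    (vec (c.take k)).1 ≤ X.1 ∧ X.1 ≤ (vec (c.take (k + 1))).1 ∧
    (X.1 = (vec (c.take k)).1 → X = vec (c.take k)) ∧
    (X.1 = (vec (c.take (k + 1))).1 → X = vec (c.take (k + 1))) ∧
    |X.2 - (vec (c.take N)).2| ≤ ((vec (c.take N)).1 - X.1) / 50 := by
  obtain ⟨t, ht0, ht1, e1, e2⟩ := seg_fst_snd hX
  obtain ⟨-, -, hlt⟩ := bd h (Nat.le_succ k) hk
  have hlt := hlt (Nat.lt_succ_self k)
  simp only [Nat.succ_eq_add_one] at hlt
  obtain ⟨-, b1, -⟩ := bd h hk.le le_rfl
  obtain ⟨-, b2, -⟩ := bd h (Nat.succ_le_of_lt hk) le_rfl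
  simp only [Nat.succ_eq_add_one] at b2
  refine ⟨by nlinarith, by nlinarith, fun hx => ?_, fun hx => ?_, ?_⟩
  · have : t = 0 := by
      have h1 : t * ((vec (c.take (k + 1))).1 - (vec (c.take k)).1) = 0 := by linarith
      rcases mul_eq_zero.1 h1 with h2 | h2
      · exact h2
      · linarith
    subst this
    exact Prod.ext (by simpa using e1) (by simpa using e2)
  · have : 1 - t = 0 := by
      have h1 : (1 - t) * ((vec (c.take (k + 1))).1 - (vec (c.take k)).1) = 0 := by linarith
      rcases mul_eq_zero.1 h1 with h2 | h2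
      · exact h2
      · linarith
    have ht : t = 1 := by linarith
    subst ht
    exact Prod.ext (by simpa using e1) (by simpa using e2)
  · rw [abs_le] at b1 b2 ⊢
    rw [e1, e2]
    constructor
    · nlinarith [b1.1, b1.2, b2.1, b2.2]
    · nlinarith [b1.1, b1.2, b2.1, b2.2]

/-- the four cases for two different edges -/
lemma simple_aux (h : Ok N c) {a b : ℕ} (hab : a < b) (hb : b < N + 2) {X : Pt}
    (hXa : X ∈ segment ℝ (polyOf N c (a : ZMod (N + 2))) (polyOf N c ((a : ZMod (N + 2)) + 1)))
    (hXb : X ∈ segment ℝ (polyOf N c (b : ZMod (N + 2))) (polyOf N c ((b : ZMod (N + 2)) + 1))) :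
    ((b : ZMod (N + 2)) = (a : ZMod (N + 2)) + 1 ∧ X = polyOf N c (b : ZMod (N + 2))) ∨
    ((a : ZMod (N + 2)) = (b : ZMod (N + 2)) + 1 ∧ X = polyOf N c (a : ZMod (N + 2))) := by
  have hN := h.2.1
  obtain ⟨xN0, yN, xN2⟩ := yb h (le_refl N)
  have hxN : 0 < (vec (c.take N)).1 := by
    have := (bd h (Nat.zero_le N) le_rfl).2.2 (by omega)
    rwa [x0] at this
  have hNr : (1 : ℝ) ≤ N := by exact_mod_cast hN
  rw [abs_le] at yN
  have ca : ∀ k : ℕ, ((k : ZMod (N + 2)) + 1) = ((k + 1 : ℕ) : ZMod (N + 2)) := fun k => by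
    push_cast; ring
  by_cases haN : a < N
  · -- a chain edge
    rw [poly_nat c haN.le, ca a, poly_nat c (Nat.succ_le_of_lt haN)] at hXa
    obtain ⟨a1, a2, a3, a4, a5⟩ := chain_seg h haN hXa
    by_cases hbN : b < N
    · rw [poly_nat c hbN.le, ca b, poly_nat c (Nat.succ_le_of_lt hbN)] at hXb
      obtain ⟨b1, b2, b3, b4, b5⟩ := chain_seg h hbN hXb
      left
      have h1 := (bd h (Nat.succ_le_of_lt hab) hbN.le).1
      simp only [Nat.succ_eq_add_one] at h1
      have hx : X.1 = (vec (c.take b)).1 := le_antisymm (a2.trans h1) b1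
      have hab' : b = a + 1 := by
        by_contra hne
        have := (bd h (Nat.succ_le_of_lt hab) hbN.le).2.2 (by omega)
        simp only [Nat.succ_eq_add_one] at this
        linarith
      refine ⟨by rw [ca a, ← hab'], ?_⟩
      rw [poly_nat c hbN.le]
      exact b3 hx
    · by_cases hbN' : b = N
      · subst hbN'
        rw [poly_nat c le_rfl, ca b, poly_apex] at hXb
        obtain ⟨t, ht0, ht1, e1, e2⟩ := seg_fst_snd hXb
        simp only [mul_zero, add_zero] at e1
        left
        have ht : t = 0 := by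
          by_contra hne
          have htp : 0 < t := lt_of_le_of_ne ht0 (Ne.symm hne)
          rw [abs_le] at a5
          have h1 : t * (4 * ((b : ℝ) + 1) - (vec (c.take b)).2) ≤
              t * ((vec (c.take b)).1 / 50) := by
            have := a5.2
            rw [e1, e2] at this
            nlinarith
          have h2 := le_of_mul_le_mul_left h1 htp
          linarith
        subst ht
        have hX : X = vec (c.take b) := Prod.ext (by rw [e1]; ring) (by rw [e2]; ring)
        have hab' : b = a + 1 := by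
          by_contra hne
          have := (bd h (Nat.succ_le_of_lt hab) le_rfl).2.2 (by omega)
          simp only [Nat.succ_eq_add_one] at this
          rw [hX] at a2
          linarith
        refine ⟨by rw [ca a, ← hab'], ?_⟩
        rw [poly_nat c le_rfl]
        exact hX
      · have hb' : b = N + 1 := by omega
        subst hb'
        rw [cast_last, poly_apex, poly_nat c (Nat.zero_le N), x0] at hXb
        obtain ⟨t, ht0, ht1, e1, e2⟩ := seg_fst_snd hXb
        simp only [mul_zero, Prod.fst_zero, add_zero] at e1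
        right
        have ha0 : a = 0 := by
          by_contra hne
          have := (bd h (Nat.zero_le a) haN.le).2.2 (by omega)
          rw [x0] at this
          simp only [Prod.fst_zero] at this
          linarith
        subst ha0
        refine ⟨by rw [cast_last], ?_⟩
        rw [poly_nat c (Nat.zero_le N)]
        exact a3 (by rw [e1, x0]; rfl)
  · have ha' : a = N := by omega
    have hb' : b = N + 1 := by omega
    subst ha' hb'
    rw [poly_nat c le_rfl, ca a, poly_apex] at hXa
    rw [cast_last, poly_apex, poly_nat c (Nat.zero_le a), x0] at hXb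
    obtain ⟨t, ht0, ht1, e1, e2⟩ := seg_fst_snd hXa
    obtain ⟨t', ht0', ht1', e1', e2'⟩ := seg_fst_snd hXb
    simp only [mul_zero, add_zero, Prod.fst_zero] at e1 e1'
    left
    refine ⟨by rw [ca a], ?_⟩
    rw [poly_apex]
    have ht : t = 1 := by
      have h1 : (1 - t) * (vec (c.take a)).1 = 0 := by rw [← e1, e1']
      rcases mul_eq_zero.1 h1 with h2 | h2 <;> linarith
    subst ht
    exact Prod.ext (by rw [e1]; simp) (by rw [e2]; simp)

end

end Geo1

open Geo1

theorem poly_simple {N : ℕ} {c : List Edge} (h : Ok N c) : IsSimple (polyOf N c) := by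
  have hN := h.2.1
  have ca : ∀ k : ℕ, ((k : ZMod (N + 2)) + 1) = ((k + 1 : ℕ) : ZMod (N + 2)) := fun k => by
    push_cast; ring
  have hxN : 0 < (vec (c.take N)).1 := by
    have := (bd h (Nat.zero_le N) le_rfl).2.2 (by omega)
    rwa [x0] at this
  refine ⟨by omega, fun i => ?_, fun i j hij X hi hj => ?_⟩
  · obtain ⟨a, ha, rfl⟩ := exists_nat i
    by_cases haN : a < N
    · rw [poly_nat c haN.le, ca a, poly_nat c (Nat.succ_le_of_lt haN)]
      intro he
      have := (bd h (Nat.le_succ a) haN).2.2 (Nat.lt_succ_self a)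
      simp only [Nat.succ_eq_add_one] at this
      rw [he] at this
      exact lt_irrefl _ this
    · by_cases haN' : a = N
      · subst haN'
        rw [poly_nat c le_rfl, ca a, poly_apex]
        intro he
        rw [he] at hxN
        exact lt_irrefl _ hxN
      · have ha' : a = N + 1 := by omega
        subst ha'
        rw [cast_last, poly_apex, poly_nat c (Nat.zero_le N), x0]
        intro he
        have h1 := congrArg Prod.snd he
        simp only [Prod.snd_zero] at h1
        have : (0 : ℝ) ≤ N := Nat.cast_nonneg N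
        linarith
  · obtain ⟨a, ha, rfl⟩ := exists_nat i
    obtain ⟨b, hb, rfl⟩ := exists_nat j
    rcases lt_trichotomy a b with hab | hab | hab
    · exact simple_aux h hab hb hi hj
    · exact absurd (by rw [hab]) hij
    · exact (simple_aux h hab ha hj hi).symm

theorem poly_area {N : ℕ} {c : List Edge} (h : Ok N c) : 0 < area2 (polyOf N c) := by
  have hN := h.2.1
  have hNr : (1 : ℝ) ≤ N := by exact_mod_cast hN
  have ca : ∀ k : ℕ, ((k : ZMod (N + 2)) + 1) = ((k + 1 : ℕ) : ZMod (N + 2)) := fun k => by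
    push_cast; ring
  have hxN : 0 < (vec (c.take N)).1 := by
    have := (bd h (Nat.zero_le N) le_rfl).2.2 (by omega)
    rwa [x0] at this
  have hxN2 := xN h
  rw [area2, Finset.sum_range_succ, Finset.sum_range_succ]
  rw [cast_last, poly_apex, poly_nat c (Nat.zero_le N), x0, ca N, poly_apex,
    poly_nat c le_rfl]
  simp only [Prod.fst_zero, Prod.snd_zero, zero_mul, mul_zero, sub_zero, add_zero]
  have hterm : ∀ k ∈ Finset.range N,
      -((vec (c.take N)).1 / 25 * ((vec (c.take (k + 1))).1 - (vec (c.take k)).1)) ≤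
      (polyOf N c (k : ZMod (N + 2))).1 * (polyOf N c ((k : ZMod (N + 2)) + 1)).2 -
        (polyOf N c ((k : ZMod (N + 2)) + 1)).1 * (polyOf N c (k : ZMod (N + 2))).2 := by
    intro k hk
    have hk := Finset.mem_range.1 hk
    rw [poly_nat c hk.le, ca k, poly_nat c (Nat.succ_le_of_lt hk)]
    obtain ⟨b1, b2, -⟩ := bd h (Nat.le_succ k) hk
    simp only [Nat.succ_eq_add_one] at b1 b2
    obtain ⟨y1, y2, -⟩ := yb h hk.le
    obtain ⟨b3, -, -⟩ := bd h hk.le le_rfl
    set x := (vec (c.take k)).1
    set x' := (vec (c.take (k + 1))).1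
    set y := (vec (c.take k)).2
    set y' := (vec (c.take (k + 1))).2
    set X := (vec (c.take N)).1
    rw [abs_le] at b2 y2
    have e : x * y' - x' * y = x * (y' - y) - y * (x' - x) := by ring
    rw [e]
    have h1 : -(X / 50 * (x' - x)) ≤ x * (y' - y) := by
      have h2 : x * (-((x' - x) / 50)) ≤ x * (y' - y) := mul_le_mul_of_nonneg_left b2.1 y1
      have h3 : x * (x' - x) ≤ X * (x' - x) := mul_le_mul_of_nonneg_right b3 (by linarith)
      nlinarith
    have h2 : y * (x' - x) ≤ X / 50 * (x' - x) :=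
      mul_le_mul_of_nonneg_right (by linarith [y2.2]) (by linarith)
    linarith
  have hsum := Finset.sum_le_sum hterm
  rw [Finset.sum_neg_distrib, ← Finset.mul_sum,
    Finset.sum_range_sub (fun k => (vec (c.take k)).1)] at hsum
  rw [x0] at hsum
  simp only [Prod.fst_zero, sub_zero] at hsum
  have h3 : (vec (c.take N)).1 / 25 * (vec (c.take N)).1 <
      (vec (c.take N)).1 * (4 * ((N : ℝ) + 1)) := by
    rw [mul_comm]
    exact mul_lt_mul_of_pos_left (by linarith) hxN
  linarith

namespace Geo1

/-- `cross` in terms of the heights -/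
lemma ht_nonneg {s : ℝ} {d : List Edge} (h : ∀ e ∈ d, 0 ≤ e.1 ∧ 0 ≤ Real.sin (e.2 - s)) :
    0 ≤ Real.cos s * (vec d).2 - Real.sin s * (vec d).1 := by
  induction d with
  | nil => simp [vec_nil]
  | cons e d ih =>
    have h1 := ih fun e he => h e (List.mem_cons_of_mem _ he)
    obtain ⟨h2, h3⟩ := h e List.mem_cons_self
    rw [vec_cons]
    simp only [Prod.fst_add, Prod.snd_add]
    rw [Real.sin_sub] at h3
    nlinarith [mul_nonneg h2 h3]

lemma ht_nonpos {s : ℝ} {d : List Edge} (h : ∀ e ∈ d, 0 ≤ e.1 ∧ Real.sin (e.2 - s) ≤ 0) :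
    Real.cos s * (vec d).2 - Real.sin s * (vec d).1 ≤ 0 := by
  induction d with
  | nil => simp [vec_nil]
  | cons e d ih =>
    have h1 := ih fun e he => h e (List.mem_cons_of_mem _ he)
    obtain ⟨h2, h3⟩ := h e List.mem_cons_self
    rw [vec_cons]
    simp only [Prod.fst_add, Prod.snd_add]
    rw [Real.sin_sub] at h3
    nlinarith [mul_nonneg h2 (neg_nonneg.2 h3)]

end Geo1

theorem poly_convex {N : ℕ} {c : List Edge} (h : Ok N c) (hs : WSorted c) :
    IsConvex (polyOf N c) := by
  have hN := h.2.1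
  have hNr : (1 : ℝ) ≤ N := by exact_mod_cast hN
  have ca : ∀ k : ℕ, ((k : ZMod (N + 2)) + 1) = ((k + 1 : ℕ) : ZMod (N + 2)) := fun k => by
    push_cast; ring
  have hxN : 0 < (vec (c.take N)).1 := by
    have := (bd h (Nat.zero_le N) le_rfl).2.2 (by omega)
    rwa [x0] at this
  have hxN2 := xN h
  obtain ⟨-, yN, -⟩ := yb h (le_refl N)
  rw [abs_le] at yN
  intro i k
  obtain ⟨a, ha, rfl⟩ := exists_nat i
  obtain ⟨b, hb, rfl⟩ := exists_nat k
  by_cases haN : a < N
  · rw [poly_nat c haN.le, ca a, poly_nat c (Nat.succ_le_of_lt haN)]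
    have hal : a < c.length := by rw [h.1]; exact haN
    set e := (c)[a]'hal with he
    have hec : e ∈ c := List.getElem_mem hal
    obtain ⟨h0, h2, h3⟩ := h.2.2 e hec
    obtain ⟨g1, g2, g3⟩ := edge_bounds h0 h2 h3
    have hv : vec (c.take (a + 1)) = vec (c.take a) + (e.1 * Real.cos e.2, e.1 * Real.sin e.2) := by
      rw [List.take_succ_eq_append_getElem hal, vec_append, vec_cons, vec_nil, add_zero]
    rw [cross, hv]
    simp only [Prod.fst_add, Prod.snd_add, add_sub_cancel_left]
    by_cases hbN : b ≤ N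
    · rw [poly_nat c hbN]
      have hang : ∀ p q : ℕ, (hp : p < c.length) → (hq : q < c.length) → p < q →
          ((c)[p]'hp).2 ≤ ((c)[q]'hq).2 := fun p q hp hq hpq => by
        have := List.pairwise_iff_getElem.1 hs p q hp hq hpq
        exact this
      have hbd : ∀ e' ∈ c, |e'.2| ≤ 1 / 100 := fun e' he' => (h.2.2 e' he').2.2
      rcases le_total a b with hab | hab
      · rw [mid_vec c hab]
        simp only [Prod.fst_add, Prod.snd_add, add_sub_cancel_left]
        have h4 := ht_nonneg (s := e.2) (d := (c.drop a).take (b - a)) (by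
          intro e' he'
          have he'c := mem_mid he'
          refine ⟨(h.2.2 e' he'c).1.le, ?_⟩
          obtain ⟨q, hq, rfl⟩ := List.mem_iff_getElem.1 he'
          rw [List.getElem_take, List.getElem_drop] at he'c ⊢
          have h5 : e.2 ≤ ((c)[a + q]'(by
              simp only [List.length_take, List.length_drop] at hq; omega)).2 := by
            rcases Nat.eq_zero_or_pos q with hq0 | hq0
            · subst hq0; simp [he]
            · exact hang a (a + q) hal _ (by omega)
          have h6 := abs_le.1 (hbd _ he'c)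
          have h7 := abs_le.1 h3
          exact Real.sin_nonneg_of_nonneg_of_le_pi (by linarith)
            (by linarith [Real.pi_gt_three, h6.2, h7.1]))
        nlinarith [mul_nonneg h0.le h4]
      · rw [mid_vec c hab]
        simp only [Prod.fst_add, Prod.snd_add]
        have h4 := ht_nonpos (s := e.2) (d := (c.drop b).take (a - b)) (by
          intro e' he'
          have he'c := mem_mid he'
          refine ⟨(h.2.2 e' he'c).1.le, ?_⟩
          obtain ⟨q, hq, rfl⟩ := List.mem_iff_getElem.1 he'
          simp only [List.length_take, List.length_drop] at hq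
          rw [List.getElem_take, List.getElem_drop] at he'c ⊢
          have h5 : ((c)[b + q]'(by omega)).2 ≤ e.2 := hang (b + q) a _ hal (by omega)
          have h6 := abs_le.1 (hbd _ he'c)
          have h7 := abs_le.1 h3
          exact Real.sin_nonpos_of_nonpos_of_neg_pi_le (by linarith)
            (by linarith [Real.pi_gt_three, h6.1, h7.2]))
        nlinarith [mul_nonneg h0.le (neg_nonneg.2 h4)]
    · have hb' : b = N + 1 := by omega
      subst hb'
      rw [poly_apex]
      obtain ⟨y1, y2, y3⟩ := yb h haN.le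
      rw [abs_le] at y2 g3
      set x := (vec (c.take a)).1
      set y := (vec (c.take a)).2
      have h5 : x / 50 ≤ 4 * ((N : ℝ) + 1) - y := by linarith [y2.2]
      have h6 : e.1 * Real.cos e.2 * (x / 50) ≤
          e.1 * Real.cos e.2 * (4 * ((N : ℝ) + 1) - y) := mul_le_mul_of_nonneg_left h5 g1.le
      have h7 : -(e.1 * Real.cos e.2 / 50) * x ≤ e.1 * Real.sin e.2 * x :=
        mul_le_mul_of_nonneg_right g3.1 y1
      simp only
      nlinarith
  · by_cases haN' : a = N
    · subst haN'
      rw [poly_nat c le_rfl, ca a, poly_apex]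
      by_cases hbN : b ≤ a
      · rw [poly_nat c hbN, cross]
        simp only
        obtain ⟨b1, b2, -⟩ := bd h hbN le_rfl
        rw [abs_le] at b2
        set x := (vec (c.take b)).1
        set y := (vec (c.take b)).2
        set X := (vec (c.take a)).1
        set Y := (vec (c.take a)).2
        have h5 : (X - x) * (X / 50) ≤ (X - x) * (4 * ((a : ℝ) + 1) - Y) :=
          mul_le_mul_of_nonneg_left (by linarith [yN.2]) (by linarith)
        have h6 : X * (y - Y) ≤ X * ((X - x) / 50) :=
          mul_le_mul_of_nonneg_left (by linarith [b2.1]) hxN.le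
        nlinarith
      · have hb' : b = a + 1 := by omega
        subst hb'
        rw [poly_apex, cross]
        simp only
        nlinarith
    · have ha' : a = N + 1 := by omega
      subst ha'
      rw [cast_last, poly_apex, poly_nat c (Nat.zero_le N), x0]
      by_cases hbN : b ≤ N
      · rw [poly_nat c hbN, cross]
        obtain ⟨y1, -, -⟩ := yb h hbN
        simp only [Prod.fst_zero, Prod.snd_zero]
        have : 0 ≤ 4 * ((N : ℝ) + 1) * (vec (c.take b)).1 := by positivity
        linarith
      · have hb' : b = N + 1 := by omega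
        subst hb'
        rw [poly_apex, cross]
        simp

end Pool.Agent.Helper20.Flip
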